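import Pool.Agent.Helper27.CB.St

/-!
# Project CB, module SLC: horizontal slices of a planar convex body
-/

set_option autoImplicit false

open MeasureTheory Set
open scoped ENNReal Pointwise

namespace Pool.Agent.Helper72.CB

open Pool.Agent.Helper27.CB

private theorem slice_icc (L : Set P2) (hL : Bd L) (τ : ℝ) (hτ : τ ∈ Prod.snd '' L) :
    ∃ a b : ℝ, a ≤ b ∧ {t : ℝ | (t, τ) ∈ L} = Icc a b := by
  obtain ⟨q, hq, hqτ⟩ := hτ
  have hne : ({t : ℝ | (t, τ) ∈ L}).Nonempty := by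
    refine ⟨q.1, ?_⟩
    change (q.1, τ) ∈ L
    rw [← hqτ]
    exact hq
  have hclosed : IsClosed {t : ℝ | (t, τ) ∈ L} :=
    hL.cpt.isClosed.preimage (continuous_id.prodMk continuous_const)
  have hsub : {t : ℝ | (t, τ) ∈ L} ⊆ Prod.fst '' L := fun t ht => ⟨(t, τ), ht, rfl⟩
  have hcpt : IsCompact {t : ℝ | (t, τ) ∈ L} :=
    (hL.cpt.image continuous_fst).of_isClosed_subset hclosed hsub
  have hcvx : Convex ℝ {t : ℝ | (t, τ) ∈ L} := by
    intro x hx y hy a b ha hb hab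
    have h1 := hL.cvx hx hy ha hb hab
    have h2 : a • ((x, τ) : P2) + b • ((y, τ) : P2) = (a • x + b • y, τ) := by
      ext
      · simp
      · simp only [Prod.snd_add, Prod.smul_snd, smul_eq_mul]
        rw [← add_mul, hab, one_mul]
    change (a • x + b • y, τ) ∈ L
    rw [← h2]
    exact h1
  have hconn : IsConnected {t : ℝ | (t, τ) ∈ L} := ⟨hne, hcvx.isPreconnected⟩
  have heq := eq_Icc_of_connected_compact hconn hcpt
  refine ⟨sInf {t : ℝ | (t, τ) ∈ L}, sSup {t : ℝ | (t, τ) ∈ L}, ?_, heq⟩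
  obtain ⟨t, ht⟩ := hne
  rw [heq] at ht
  exact ht.1.trans ht.2

private theorem len_icc (L : Set P2) (τ a b : ℝ) (hab : a ≤ b)
    (h : {t : ℝ | (t, τ) ∈ L} = Icc a b) : len L τ = b - a := by
  unfold len
  rw [h, Real.volume_Icc, ENNReal.toReal_ofReal (by linarith)]

/-- SLC -/
theorem hSLC : StSLC := by
  intro L hL
  have hempty : ∀ τ, τ ∉ Prod.snd '' L → len L τ = 0 := by
    intro τ hτ
    have h1 : {t : ℝ | (t, τ) ∈ L} = ∅ := by
      rw [eq_empty_iff_forall_notMem]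
      intro t ht
      exact hτ ⟨(t, τ), ht, rfl⟩
    unfold len
    rw [h1]
    simp
  have hbdd : BddAbove {s : ℝ | ∃ t τ : ℝ, (t, τ) ∈ L ∧ (t + s, τ) ∈ L} := by
    obtain ⟨M, hM⟩ := (hL.cpt.image continuous_fst).bddAbove
    obtain ⟨m, hm⟩ := (hL.cpt.image continuous_fst).bddBelow
    refine ⟨M - m, ?_⟩
    rintro s ⟨t, τ, h1, h2⟩
    have h3 : t + s ≤ M := hM ⟨(t + s, τ), h2, rfl⟩
    have h4 : m ≤ t := hm ⟨(t, τ), h1, rfl⟩
    linarith
  refine ⟨?_, ?_, ?_, hempty⟩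
  · intro τ s hs
    constructor
    · rintro ⟨t, h1, h2⟩
      have hτ : τ ∈ Prod.snd '' L := ⟨(t, τ), h1, rfl⟩
      obtain ⟨a, b, hab, h⟩ := slice_icc L hL τ hτ
      refine ⟨hτ, ?_⟩
      rw [len_icc L τ a b hab h]
      have h3 : t ∈ Icc a b := h ▸ (show t ∈ {t : ℝ | (t, τ) ∈ L} from h1)
      have h4 : t + s ∈ Icc a b := h ▸ (show t + s ∈ {t : ℝ | (t, τ) ∈ L} from h2)
      linarith [h3.1, h4.2]
    · rintro ⟨hτ, hs2⟩
      obtain ⟨a, b, hab, h⟩ := slice_icc L hL τ hτ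
      rw [len_icc L τ a b hab h] at hs2
      have h3 : a ∈ {t : ℝ | (t, τ) ∈ L} := by
        rw [h]
        exact ⟨le_rfl, hab⟩
      have h4 : a + s ∈ {t : ℝ | (t, τ) ∈ L} := by
        rw [h]
        constructor
        · linarith
        · linarith
      exact ⟨a, h3, h4⟩
  · have h1 : Measurable fun y : ℝ => (volume : Measure ℝ) ((fun x : ℝ => (x, y)) ⁻¹' L) :=
      measurable_measure_prodMk_right hL.cpt.isClosed.measurableSet
    exact h1.ennreal_toReal
  · intro τ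
    refine ⟨ENNReal.toReal_nonneg, ?_⟩
    by_cases hτ : τ ∈ Prod.snd '' L
    · obtain ⟨a, b, hab, h⟩ := slice_icc L hL τ hτ
      rw [len_icc L τ a b hab h]
      have h3 : a ∈ {t : ℝ | (t, τ) ∈ L} := by
        rw [h]
        exact ⟨le_rfl, hab⟩
      have h4 : a + (b - a) ∈ {t : ℝ | (t, τ) ∈ L} := by
        rw [h]
        constructor
        · linarith
        · linarith
      exact le_csSup hbdd ⟨a, τ, h3, h4⟩
    · rw [hempty τ hτ]
      obtain ⟨q, hq⟩ := hL.int.mono interior_subset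
      refine le_csSup hbdd ⟨q.1, q.2, hq, ?_⟩
      rw [add_zero]
      exact hq

end Pool.Agent.Helper72.CB
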